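import Mathlib
import Pool.Agent.Results.MP_1d8377_an.NoStrongMax

/-!
# No integral condition weaker than `V ∈ L¹` gives the strong maximum principle

For every nondecreasing gauge `Φ` with `Φ 0 = 0` and `liminf Φ(t) / t = 0` at infinity, every
dimension `N ≥ 1` and every nonempty open `Ω ⊆ ℝ^N` there are `V ≥ 0` with `∫ Φ(l V) < ∞` for all
`l`, and also with `V^{1/2} ∈ L^p` for all `p < 2`, and a nonzero `u ≥ 0` of class `C¹` with
compact support in `Ω` which satisfies `Vu ∈ L¹` and `Δ u ≤ V u`.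

The function is `u(x) = W(1 - |x-c|²/R²)`, where `W` is convex and the measure `W''` is
concentrated on intervals at `2^{-k-2}` whose lengths `ε k` are adapted to the gauge.
-/

set_option autoImplicit false
set_option linter.unusedSectionVars false

namespace Pool.Agent.Results.MP_1d8377_an.GaugeSharp

open MeasureTheory Laplacian InnerProductSpace Filter Topology Set
open Pool.Agent.Results.MP_1d8377_an.NoStrongMax
open scoped ENNReal

/-! ### The one-dimensional profile -/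

section profile

/-- The jumps of the slope. -/
noncomputable def am (k : ℕ) : ℝ := (1 / 2) ^ k

lemma am_pos (k : ℕ) : 0 < am k := by unfold am; positivity

/-- The widths of the kinks: positive and at most half the position. -/
structure Widths (ε : ℕ → ℝ) : Prop where
  pos : ∀ k, 0 < ε k
  le : ∀ k, ε k ≤ (1 / 2) ^ (k + 3)

variable {ε : ℕ → ℝ}

lemma Widths.le_half (h : Widths ε) (k : ℕ) : ε k ≤ sk k / 2 := by
  refine (h.le k).trans (le_of_eq ?_)
  unfold sk
  rw [pow_succ]; ring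

lemma Widths.add_le (h : Widths ε) (k : ℕ) : sk k + ε k ≤ 1 / 2 := by
  have h1 := h.le_half k
  have h2 : sk k ≤ 1 / 4 := by
    unfold sk
    calc ((1 : ℝ) / 2) ^ (k + 2) ≤ (1 / 2) ^ 2 :=
          pow_le_pow_of_le_one (by norm_num) (by norm_num) (by omega)
      _ = 1 / 4 := by norm_num
  linarith

/-- The slope of the `k`-th piece. -/
noncomputable def mk (ε : ℕ → ℝ) (k : ℕ) (s : ℝ) : ℝ := am k * th ((s - sk k) / ε k)
/-- The curvature of the `k`-th piece. -/
noncomputable def mk' (ε : ℕ → ℝ) (k : ℕ) (s : ℝ) : ℝ :=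
  am k / ε k * deriv th ((s - sk k) / ε k)
/-- The `k`-th piece. -/
noncomputable def wk (ε : ℕ → ℝ) (k : ℕ) (s : ℝ) : ℝ := ∫ t in (0 : ℝ)..s, mk ε k t

lemma hasDerivAt_mk (ε : ℕ → ℝ) (k : ℕ) (s : ℝ) : HasDerivAt (mk ε k) (mk' ε k s) s := by
  have h1 : HasDerivAt (fun s : ℝ => (s - sk k) / ε k) (1 / ε k) s :=
    ((hasDerivAt_id s).sub_const _).div_const _
  have h2 := ((th_diff ((s - sk k) / ε k)).comp s h1).const_mul (am k)
  refine h2.congr_deriv ?_
  unfold mk'
  ring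

lemma continuous_mk (ε : ℕ → ℝ) (k : ℕ) : Continuous (mk ε k) :=
  continuous_iff_continuousAt.mpr fun s => (hasDerivAt_mk ε k s).continuousAt

lemma continuous_mk' (ε : ℕ → ℝ) (k : ℕ) : Continuous (mk' ε k) :=
  continuous_const.mul (th'_cont.comp (by fun_prop))

lemma hasDerivAt_wk (ε : ℕ → ℝ) (k : ℕ) (s : ℝ) : HasDerivAt (wk ε k) (mk ε k s) s :=
  intervalIntegral.integral_hasDerivAt_right ((continuous_mk ε k).intervalIntegrable _ _)
    ((continuous_mk ε k).stronglyMeasurableAtFilter _ _) (continuous_mk ε k).continuousAt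

lemma contDiff_wk (ε : ℕ → ℝ) (k : ℕ) : ContDiff ℝ 2 (wk ε k) := by
  have hd1 : deriv (wk ε k) = mk ε k := funext fun s => (hasDerivAt_wk ε k s).deriv
  have hd2 : deriv (mk ε k) = mk' ε k := funext fun s => (hasDerivAt_mk ε k s).deriv
  have h1 : ContDiff ℝ 1 (mk ε k) := by
    rw [contDiff_one_iff_deriv]
    exact ⟨fun s => (hasDerivAt_mk ε k s).differentiableAt, by rw [hd2]; exact continuous_mk' ε k⟩
  have : (2 : WithTop ℕ∞) = 1 + 1 := by norm_num
  rw [this, contDiff_succ_iff_deriv]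
  refine ⟨fun s => (hasDerivAt_wk ε k s).differentiableAt, by simp, by rw [hd1]; exact h1⟩

lemma mk_nonneg (ε : ℕ → ℝ) (k : ℕ) (s : ℝ) : 0 ≤ mk ε k s :=
  mul_nonneg (am_pos k).le (Real.smoothTransition.nonneg _)

lemma mk_le (ε : ℕ → ℝ) (k : ℕ) (s : ℝ) : mk ε k s ≤ am k := by
  have := mul_le_mul_of_nonneg_left (Real.smoothTransition.le_one ((s - sk k) / ε k)) (am_pos k).le
  rw [mul_one] at this
  exact this

lemma norm_mk_le (ε : ℕ → ℝ) (k : ℕ) (s : ℝ) : ‖mk ε k s‖ ≤ (1 / 2) ^ k := by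
  rw [Real.norm_eq_abs, abs_of_nonneg (mk_nonneg ε k s)]
  exact mk_le ε k s

lemma mk_zero (h : Widths ε) (k : ℕ) {s : ℝ} (hs : s ≤ 0) : mk ε k s = 0 := by
  unfold mk
  rw [show th ((s - sk k) / ε k) = 0 from Real.smoothTransition.zero_of_nonpos
      (div_nonpos_of_nonpos_of_nonneg (by linarith [sk_pos k]) (h.pos k).le), mul_zero]

lemma mk_one (h : Widths ε) (k : ℕ) {s : ℝ} (hs : sk k + ε k ≤ s) : mk ε k s = am k := by
  unfold mk
  have h2 : th ((s - sk k) / ε k) = 1 := by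
    apply Real.smoothTransition.one_of_one_le
    rw [le_div_iff₀ (h.pos k)]; linarith
  rw [h2, mul_one]

lemma mk'_nonneg (h : Widths ε) (k : ℕ) (s : ℝ) : 0 ≤ mk' ε k s :=
  mul_nonneg (div_nonneg (am_pos k).le (h.pos k).le) (th'_nonneg _)

lemma mk'_le (h : Widths ε) (k : ℕ) (s : ℝ) : mk' ε k s ≤ am k / ε k * Cth :=
  mul_le_mul_of_nonneg_left (th'_le _) (div_nonneg (am_pos k).le (h.pos k).le)

lemma mk'_off (h : Widths ε) (k : ℕ) {s : ℝ} (hs : s ∉ Icc (sk k) (sk k + ε k)) :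
    mk' ε k s = 0 := by
  unfold mk'
  rw [mem_Icc, not_and_or, not_le, not_le] at hs
  rcases hs with hs | hs
  · rw [th'_zero_of_nonpos, mul_zero]
    exact div_nonpos_of_nonpos_of_nonneg (by linarith) (h.pos k).le
  · rw [th'_zero_of_one_le, mul_zero]
    rw [le_div_iff₀ (h.pos k)]
    linarith

lemma kinks_disjoint (h : Widths ε) {j k : ℕ} (hjk : j ≠ k) {s : ℝ}
    (hs : s ∈ Icc (sk k) (sk k + ε k)) : s ∉ Icc (sk j) (sk j + ε j) := by
  intro hs'
  rcases lt_or_gt_of_ne hjk with hl | hl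
  · have h1 := sk_double hl
    have h2 := h.le_half k
    have h3 := sk_pos k
    linarith [hs.2, hs'.1]
  · have h1 := sk_double hl
    have h2 := h.le_half j
    have h3 := sk_pos j
    linarith [hs.1, hs'.2]

lemma wk_zero (h : Widths ε) (k : ℕ) {s : ℝ} (hs : s ≤ 0) : wk ε k s = 0 := by
  unfold wk
  have : ∫ t in (0 : ℝ)..s, mk ε k t = ∫ t in (0 : ℝ)..s, (0 : ℝ) := by
    refine intervalIntegral.integral_congr fun t ht => ?_
    rw [uIcc_of_ge hs] at ht
    exact mk_zero h k ht.2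
  rw [this, intervalIntegral.integral_zero]

lemma wk_sub_ge (ε : ℕ → ℝ) (k : ℕ) {x s c : ℝ} (hxs : x ≤ s)
    (hc : ∀ t ∈ Icc x s, c ≤ mk ε k t) : c * (s - x) ≤ wk ε k s - wk ε k x := by
  unfold wk
  rw [intervalIntegral.integral_interval_sub_left ((continuous_mk ε k).intervalIntegrable _ _)
    ((continuous_mk ε k).intervalIntegrable _ _)]
  have h0 : IntervalIntegrable (fun _ : ℝ => c) volume x s := intervalIntegrable_const
  have := intervalIntegral.integral_mono_on hxs h0 ((continuous_mk ε k).intervalIntegrable x s) hc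
  rw [intervalIntegral.integral_const, smul_eq_mul] at this
  linarith

lemma wk_mono (ε : ℕ → ℝ) (k : ℕ) : Monotone (wk ε k) := by
  intro x s hxs
  have := wk_sub_ge ε k (c := 0) hxs fun t _ => mk_nonneg ε k t
  linarith

lemma wk_nonneg (h : Widths ε) (k : ℕ) (s : ℝ) : 0 ≤ wk ε k s := by
  rcases le_total s 0 with hs | hs
  · rw [wk_zero h k hs]
  · have := wk_mono ε k hs
    rwa [wk_zero h k le_rfl] at this

lemma wk_abs (ε : ℕ → ℝ) (k : ℕ) (s : ℝ) : ‖wk ε k s‖ ≤ (1 / 2) ^ k * |s| := by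
  have := intervalIntegral.norm_integral_le_of_norm_le_const (a := 0) (b := s)
    (f := mk ε k) (C := (1 / 2) ^ k) fun x _ => norm_mk_le ε k x
  rw [sub_zero] at this
  exact this

lemma wk_le (h : Widths ε) (k : ℕ) {s : ℝ} (hs : s ≤ 1) : ‖wk ε k s‖ ≤ (1 / 2) ^ k := by
  rcases le_total s 0 with h0 | h0
  · rw [wk_zero h k h0]; simp
  · refine (wk_abs ε k s).trans ?_
    rw [abs_of_nonneg h0]
    have : (0 : ℝ) < (1 / 2) ^ k := by positivity
    nlinarith

lemma wk_lower (h : Widths ε) {k : ℕ} {s : ℝ} (hs : sk k ≤ s) :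
    (1 / 2) ^ (k + 4) * am (k + 1) ≤ wk ε (k + 1) s := by
  have h1 : sk (k + 1) + ε (k + 1) ≤ sk k - (1 / 2) ^ (k + 4) := by
    have h2 := h.le (k + 1)
    have h3 : sk (k + 1) = (1 / 2) ^ (k + 3) := rfl
    have h4 : sk k = 2 * (1 / 2) ^ (k + 3) := by unfold sk; rw [pow_succ _ (k + 2)]; ring
    have h5 : ((1 : ℝ) / 2) ^ (k + 3) = 2 * (1 / 2) ^ (k + 4) := by rw [pow_succ _ (k + 3)]; ring
    have h6 : (k + 1 + 3) = k + 4 := by omega
    rw [h6] at h2
    rw [h3, h4]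
    linarith
  have hp : (0 : ℝ) < (1 / 2) ^ (k + 4) := by positivity
  have h2 : sk (k + 1) + ε (k + 1) ≤ s := by linarith
  have h3 := wk_sub_ge ε (k + 1) h2 (c := am (k + 1)) fun t ht => (mk_one h (k + 1) ht.1).ge
  have h4 := wk_nonneg h (k + 1) (sk (k + 1) + ε (k + 1))
  have h5 := am_pos (k + 1)
  have h6 : (1 / 2) ^ (k + 4) ≤ s - (sk (k + 1) + ε (k + 1)) := by linarith
  nlinarith

/-- The profile. -/
noncomputable def Wf (ε : ℕ → ℝ) (s : ℝ) : ℝ := ∑' k, wk ε k s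
/-- The slope. -/
noncomputable def Mf (ε : ℕ → ℝ) (s : ℝ) : ℝ := ∑' k, mk ε k s
/-- The curvature. -/
noncomputable def cf (ε : ℕ → ℝ) (s : ℝ) : ℝ := ∑' k, mk' ε k s

lemma summable_wk (ε : ℕ → ℝ) (s : ℝ) : Summable fun k => wk ε k s :=
  Summable.of_norm_bounded (summable_half.mul_right |s|) fun k => wk_abs ε k s

lemma hasDerivAt_Wf (ε : ℕ → ℝ) (s : ℝ) : HasDerivAt (Wf ε) (Mf ε s) s :=
  hasDerivAt_tsum (u := fun k : ℕ => (1 / 2 : ℝ) ^ k) (g := fun k s => wk ε k s)
    (g' := fun k s => mk ε k s) (y₀ := 0) summable_half (fun k y => hasDerivAt_wk ε k y)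
    (fun k y => norm_mk_le ε k y) (summable_wk ε 0) s

lemma continuous_Mf (ε : ℕ → ℝ) : Continuous (Mf ε) :=
  continuous_tsum (u := fun k : ℕ => (1 / 2 : ℝ) ^ k) (continuous_mk ε) summable_half
    fun k s => norm_mk_le ε k s

lemma contDiff_Wf (ε : ℕ → ℝ) : ContDiff ℝ 1 (Wf ε) := by
  rw [contDiff_one_iff_deriv]
  refine ⟨fun s => (hasDerivAt_Wf ε s).differentiableAt, ?_⟩
  rw [show deriv (Wf ε) = Mf ε from funext fun s => (hasDerivAt_Wf ε s).deriv]
  exact continuous_Mf ε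

lemma Wf_zero (h : Widths ε) {s : ℝ} (hs : s ≤ 0) : Wf ε s = 0 := by
  unfold Wf
  simp only [wk_zero h _ hs, tsum_zero]

lemma Wf_nonneg (h : Widths ε) (s : ℝ) : 0 ≤ Wf ε s := tsum_nonneg fun k => wk_nonneg h k s

lemma Wf_lower (h : Widths ε) {k : ℕ} {s : ℝ} (hs : sk k ≤ s) :
    (1 / 2) ^ (k + 4) * am (k + 1) ≤ Wf ε s :=
  (wk_lower h hs).trans ((summable_wk ε s).le_tsum (k + 1) fun j _ => wk_nonneg h j s)

lemma Wf_pos (h : Widths ε) {s : ℝ} (hs : 0 < s) : 0 < Wf ε s := by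
  obtain ⟨k, hk⟩ := exists_sk_le hs
  have := am_pos (k + 1)
  exact lt_of_lt_of_le (by positivity) (Wf_lower h hk)

lemma cf_on (h : Widths ε) {k : ℕ} {s : ℝ} (hs : s ∈ Icc (sk k) (sk k + ε k)) :
    cf ε s = mk' ε k s :=
  tsum_eq_single k fun _ hj => mk'_off h _ (kinks_disjoint h hj hs)

lemma cf_off (h : Widths ε) {s : ℝ} (hs : ∀ k, s ∉ Icc (sk k) (sk k + ε k)) : cf ε s = 0 := by
  unfold cf
  simp only [fun k => mk'_off h k (hs k), tsum_zero]

lemma cf_nonneg (h : Widths ε) (s : ℝ) : 0 ≤ cf ε s := tsum_nonneg fun k => mk'_nonneg h k s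

lemma cf_zero (h : Widths ε) {s : ℝ} (hs : s ≤ 0) : cf ε s = 0 :=
  cf_off h fun k hk => by linarith [hk.1, sk_pos k]

lemma sum_le_cf (h : Widths ε) (n : ℕ) (s : ℝ) : ∑ k ∈ Finset.range n, mk' ε k s ≤ cf ε s := by
  have hsum : Summable fun k => mk' ε k s := by
    by_cases hs : ∃ k, s ∈ Icc (sk k) (sk k + ε k)
    · obtain ⟨k, hk⟩ := hs
      exact summable_of_ne_finset_zero (s := {k}) fun j hj =>
        mk'_off h _ (kinks_disjoint h (by simpa using hj) hk)
    · push Not at hs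
      exact summable_of_ne_finset_zero (s := ∅) fun j _ => mk'_off h _ (hs j)
  exact hsum.sum_le_tsum _ fun k _ => mk'_nonneg h k s

lemma measurable_cf (ε : ℕ → ℝ) : Measurable (cf ε) :=
  Measurable.tsum fun k => (continuous_mk' ε k).measurable

/-- The quotient `W''/W`. -/
noncomputable def Qf (ε : ℕ → ℝ) (s : ℝ) : ℝ := cf ε s / Wf ε s

lemma Qf_nonneg (h : Widths ε) (s : ℝ) : 0 ≤ Qf ε s := div_nonneg (cf_nonneg h s) (Wf_nonneg h s)

lemma Qf_off (h : Widths ε) {s : ℝ} (hs : ∀ k, s ∉ Icc (sk k) (sk k + ε k)) : Qf ε s = 0 := by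
  rw [Qf, cf_off h hs, zero_div]

lemma Qf_on (h : Widths ε) {k : ℕ} {s : ℝ} (hs : s ∈ Icc (sk k) (sk k + ε k)) :
    Qf ε s ≤ 32 * Cth * 2 ^ k / ε k := by
  have h1 : cf ε s ≤ am k / ε k * Cth := (cf_on h hs).trans_le (mk'_le h k s)
  have h2 := Wf_lower h hs.1
  have h3 := am_pos (k + 1)
  have h4 : 0 < Wf ε s := lt_of_lt_of_le (by positivity) h2
  have hε := h.pos k
  have hC := Cth_pos
  rw [Qf, div_le_iff₀ h4]
  refine h1.trans ?_
  refine le_trans (le_of_eq ?_) (mul_le_mul_of_nonneg_left h2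
    (by positivity : 0 ≤ 32 * Cth * 2 ^ k / ε k))
  unfold am
  have e3 : ((1 : ℝ) / 2) ^ k * 2 ^ k = 1 := by
    rw [← mul_pow]; norm_num
  have e4 : ((1 : ℝ) / 2) ^ (k + 4) = (1 / 2) ^ k * (1 / 16) := by
    rw [pow_add]; norm_num
  have e5 : ((1 : ℝ) / 2) ^ (k + 1) = (1 / 2) ^ k * (1 / 2) := by
    rw [pow_add]; norm_num
  rw [e4, e5]
  have : 32 * Cth * 2 ^ k / ε k * ((1 / 2) ^ k * (1 / 16) * ((1 / 2) ^ k * (1 / 2))) =
      Cth / ε k * (1 / 2) ^ k * ((1 / 2) ^ k * 2 ^ k) := by ring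
  rw [this, e3]
  ring

end profile

/-! ### The functions `u` and `V` -/

section construction
variable {E : Type*} [NormedAddCommGroup E] [InnerProductSpace ℝ E] [FiniteDimensional ℝ E]
variable {ε : ℕ → ℝ}

/-- `u(x) = W(σ(x))`. -/
noncomputable def uf (ε : ℕ → ℝ) (c : E) (R : ℝ) (x : E) : ℝ := Wf ε (sg c R x)

/-- `V(x) = (4/R²) (W''/W)(σ(x))`. -/
noncomputable def Vf (ε : ℕ → ℝ) (c : E) (R : ℝ) (x : E) : ℝ := 4 / R ^ 2 * Qf ε (sg c R x)

/-- The `k`-th piece of `u`. -/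
noncomputable def uk (ε : ℕ → ℝ) (c : E) (R : ℝ) (k : ℕ) (x : E) : ℝ := wk ε k (sg c R x)

omit [FiniteDimensional ℝ E] in
lemma contDiff_uk (ε : ℕ → ℝ) (c : E) (R : ℝ) (k : ℕ) : ContDiff ℝ 2 (uk ε c R k) :=
  (contDiff_wk ε k).comp (contDiff_sg c R)

omit [FiniteDimensional ℝ E] in
lemma contDiff_uf (ε : ℕ → ℝ) (c : E) (R : ℝ) : ContDiff ℝ 1 (uf ε c R) :=
  (contDiff_Wf ε).comp ((contDiff_sg c R).of_le (by norm_num))

lemma laplacian_uk (ε : ℕ → ℝ) (c : E) {R : ℝ} (hR : 0 < R) (k : ℕ) (x : E) :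
    Δ (uk ε c R k) x = 4 * ‖x - c‖ ^ 2 * (mk' ε k (sg c R x) / R ^ 4) -
      2 * (Module.finrank ℝ E : ℝ) * (mk ε k (sg c R x) / R ^ 2) := by
  have hR2 : R ≠ 0 := hR.ne'
  have hlin : ∀ s : ℝ, HasDerivAt (fun s : ℝ => 1 - s / R ^ 2) (-(1 / R ^ 2)) s := fun s =>
    (((hasDerivAt_id s).div_const (R ^ 2)).const_sub 1)
  have h := laplacian_comp_normSq (E := E) (U := fun s => wk ε k (1 - s / R ^ 2))
    (U' := fun s => mk ε k (1 - s / R ^ 2) * (-(1 / R ^ 2)))
    (U'' := fun s => mk' ε k (1 - s / R ^ 2) * (-(1 / R ^ 2)) * (-(1 / R ^ 2))) c x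
    (fun s => (hasDerivAt_wk ε k _).comp s (hlin s))
    (fun s => ((hasDerivAt_mk ε k _).comp s (hlin s)).mul_const _)
  have e : uk ε c R k = fun y : E => (fun s => wk ε k (1 - s / R ^ 2)) (‖y - c‖ ^ 2) := rfl
  rw [e, h]
  unfold sg
  field_simp
  ring

lemma laplacian_uk_le (h : Widths ε) (c : E) {R : ℝ} (hR : 0 < R) (k : ℕ) (x : E) :
    Δ (uk ε c R k) x ≤ 4 / R ^ 2 * mk' ε k (sg c R x) := by
  rw [laplacian_uk ε c hR]
  have h1 := mk_nonneg ε k (sg c R x)
  have h2 := mk'_nonneg h k (sg c R x)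
  have h3 : 0 ≤ 2 * (Module.finrank ℝ E : ℝ) * (mk ε k (sg c R x) / R ^ 2) := by positivity
  rcases le_or_gt (sg c R x) 0 with hs | hs
  · have hz : mk' ε k (sg c R x) = 0 := mk'_off h k fun hk => by linarith [hk.1, sk_pos k]
    rw [hz]
    simp only [zero_div, mul_zero, zero_sub]
    linarith
  · have h4 : ‖x - c‖ ^ 2 ≤ R ^ 2 := by
      unfold sg at hs
      have : ‖x - c‖ ^ 2 / R ^ 2 < 1 := by linarith
      rw [div_lt_one (by positivity)] at this
      exact this.le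
    have h5 : 4 * ‖x - c‖ ^ 2 * (mk' ε k (sg c R x) / R ^ 4) ≤
        4 / R ^ 2 * mk' ε k (sg c R x) := by
      have e : 4 / R ^ 2 * mk' ε k (sg c R x) = 4 * R ^ 2 * (mk' ε k (sg c R x) / R ^ 4) := by
        field_simp
      rw [e]
      apply mul_le_mul_of_nonneg_right _ (by positivity)
      linarith
    linarith

omit [FiniteDimensional ℝ E] in
lemma Vf_mul_uf (h : Widths ε) (c : E) (R : ℝ) (x : E) :
    Vf ε c R x * uf ε c R x = 4 / R ^ 2 * cf ε (sg c R x) := by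
  unfold Vf uf Qf
  rcases le_or_gt (sg c R x) 0 with hs | hs
  · rw [Wf_zero h hs, cf_zero h hs]; simp
  · have := (Wf_pos h hs).ne'
    field_simp

omit [FiniteDimensional ℝ E] in
lemma sg_nonpos {c : E} {R : ℝ} (hR : 0 < R) {x : E} (hx : x ∉ Metric.closedBall c R) :
    sg c R x ≤ 0 := by
  rw [Metric.mem_closedBall, not_le, dist_eq_norm] at hx
  unfold sg
  have : 1 ≤ ‖x - c‖ ^ 2 / R ^ 2 := by
    rw [one_le_div (by positivity)]
    exact pow_le_pow_left₀ hR.le hx.le 2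
  linarith

omit [FiniteDimensional ℝ E] in
lemma sg_le_one (c : E) (R : ℝ) (x : E) : sg c R x ≤ 1 := by
  unfold sg
  have : 0 ≤ ‖x - c‖ ^ 2 / R ^ 2 := by positivity
  linarith

omit [FiniteDimensional ℝ E] in
lemma uf_zero (h : Widths ε) {c : E} {R : ℝ} (hR : 0 < R) {x : E}
    (hx : x ∉ Metric.closedBall c R) : uf ε c R x = 0 := Wf_zero h (sg_nonpos hR hx)

omit [FiniteDimensional ℝ E] in
lemma Vf_nonneg (h : Widths ε) (c : E) (R : ℝ) (x : E) : 0 ≤ Vf ε c R x :=
  mul_nonneg (by positivity) (Qf_nonneg h _)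

variable [MeasurableSpace E] [BorelSpace E] [Nontrivial E]

/-- The annulus on which the `k`-th kink lives. -/
def Ann (ε : ℕ → ℝ) (c : E) (R : ℝ) (k : ℕ) : Set E := {x | sg c R x ∈ Icc (sk k) (sk k + ε k)}

lemma measure_Ann_le (h : Widths ε) (c : E) {R : ℝ} (hR : 0 < R) (k : ℕ) :
    volume (Ann ε c R k) ≤ ENNReal.ofReal (R ^ Module.finrank ℝ E * Module.finrank ℝ E * ε k) *
      volume (Metric.ball (0 : E) 1) := by
  set n := Module.finrank ℝ E
  have hs := h.add_le k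
  have hs0 := sk_pos k
  have he0 := h.pos k
  set a := √(1 - sk k - ε k) with ha
  set b := √(1 - sk k) with hb
  have ha2 : a ^ 2 = 1 - sk k - ε k := Real.sq_sqrt (by linarith)
  have hb2 : b ^ 2 = 1 - sk k := Real.sq_sqrt (by linarith)
  have ha0 : 0 ≤ a := Real.sqrt_nonneg _
  have hb0 : 0 ≤ b := Real.sqrt_nonneg _
  have hab : a ≤ b := Real.sqrt_le_sqrt (by linarith)
  have hb1 : b ≤ 1 := by nlinarith
  have ha1 : 1 / 2 ≤ a := by
    by_contra hcon
    push Not at hcon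
    nlinarith
  have hsub : Ann ε c R k ⊆ Metric.closedBall c (R * b) \ Metric.ball c (R * a) := by
    intro x hx
    obtain ⟨h1, h2⟩ := hx
    unfold sg at h1 h2
    have hn := norm_nonneg (x - c)
    have e1 : ‖x - c‖ ^ 2 / R ^ 2 = (‖x - c‖ / R) ^ 2 := by rw [div_pow]
    rw [e1] at h1 h2
    have hq : 0 ≤ ‖x - c‖ / R := by positivity
    refine ⟨?_, ?_⟩
    · rw [Metric.mem_closedBall, dist_eq_norm, ← div_le_iff₀' hR]
      by_contra hcon
      push Not at hcon
      nlinarith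
    · rw [Metric.mem_ball, dist_eq_norm, not_lt, ← le_div_iff₀' hR]
      by_contra hcon
      push Not at hcon
      nlinarith
  refine (measure_mono hsub).trans ?_
  rw [measure_sdiff (Metric.ball_subset_closedBall.trans
    (Metric.closedBall_subset_closedBall (by nlinarith))) measurableSet_ball.nullMeasurableSet
    measure_ball_lt_top.ne, Measure.addHaar_closedBall _ c (by positivity : 0 ≤ R * b),
    Measure.addHaar_ball _ c (by positivity : 0 ≤ R * a), ← ENNReal.sub_mul (fun _ _ =>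
      measure_ball_lt_top.ne), ← ENNReal.ofReal_sub _ (by positivity)]
  gcongr
  rw [mul_pow, mul_pow, ← mul_sub, mul_assoc]
  gcongr
  refine (pow_sub_pow_le ha0 hab hb1 n).trans ?_
  gcongr
  nlinarith

omit [FiniteDimensional ℝ E] [Nontrivial E] in
lemma measurable_sg (c : E) (R : ℝ) : Measurable (sg c R) := (contDiff_sg c R).continuous.measurable

omit [FiniteDimensional ℝ E] [Nontrivial E] in
lemma measurableSet_Ann (ε : ℕ → ℝ) (c : E) (R : ℝ) (k : ℕ) : MeasurableSet (Ann ε c R k) :=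
  (measurable_sg c R) measurableSet_Icc

omit [FiniteDimensional ℝ E] [Nontrivial E] in
lemma measurable_Vf (ε : ℕ → ℝ) (c : E) (R : ℝ) : Measurable (Vf ε c R) := by
  have h1 : Measurable (Qf ε) := (measurable_cf ε).div (contDiff_Wf ε).continuous.measurable
  exact (h1.comp (measurable_sg c R)).const_mul _

/-- A function which lives on the annuli and is at most `g k` on the `k`-th one is integrable as
soon as the series `∑ g k * ε k` converges. -/
lemma integrable_of_kinks (h : Widths ε) (c : E) {R : ℝ} (hR : 0 < R) {G : E → ℝ}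
    (hG : Measurable G) (h0 : ∀ x, 0 ≤ G x) (hz : ∀ x, (∀ k, x ∉ Ann ε c R k) → G x = 0)
    {g : ℕ → ℝ} (hg : ∀ k, 0 ≤ g k) (hle : ∀ k, ∀ x ∈ Ann ε c R k, G x ≤ g k)
    (hs : Summable fun k => g k * ε k) : Integrable G volume := by
  refine ⟨hG.aestronglyMeasurable, ?_⟩
  rw [hasFiniteIntegral_iff_enorm]
  have hval : ∀ x, ‖G x‖ₑ = ENNReal.ofReal (G x) := fun x => Real.enorm_eq_ofReal (h0 x)
  simp_rw [hval]
  set n := Module.finrank ℝ E
  set D : ℝ := R ^ n * n with hD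
  have hD0 : 0 ≤ D := by positivity
  calc ∫⁻ x, ENNReal.ofReal (G x)
      = ∫⁻ x in ⋃ k, Ann ε c R k, ENNReal.ofReal (G x) := by
        rw [← lintegral_indicator (MeasurableSet.iUnion fun k => measurableSet_Ann ε c R k)]
        congr 1
        ext x
        by_cases hx : x ∈ ⋃ k, Ann ε c R k
        · rw [indicator_of_mem hx]
        · rw [indicator_of_notMem hx, hz x (by simpa using hx)]; simp
    _ ≤ ∑' k, ∫⁻ x in Ann ε c R k, ENNReal.ofReal (G x) := lintegral_iUnion_le _ _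
    _ ≤ ∑' k, ENNReal.ofReal (g k) * volume (Ann ε c R k) := by
        refine ENNReal.tsum_le_tsum fun k => ?_
        refine (setLIntegral_mono measurable_const fun x hx =>
          ENNReal.ofReal_le_ofReal (hle k x hx)).trans ?_
        rw [setLIntegral_const]
    _ ≤ ∑' k, ENNReal.ofReal (g k) * (ENNReal.ofReal (D * ε k) *
          volume (Metric.ball (0 : E) 1)) := by
        refine ENNReal.tsum_le_tsum fun k => ?_
        gcongr
        exact measure_Ann_le h c hR k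
    _ = (∑' k, ENNReal.ofReal (D * (g k * ε k))) *
          volume (Metric.ball (0 : E) 1) := by
        rw [← ENNReal.tsum_mul_right]
        congr 1
        ext k
        rw [← mul_assoc, ← ENNReal.ofReal_mul (hg k)]
        congr 2
        ring
    _ < ∞ := by
        refine ENNReal.mul_lt_top ?_ measure_ball_lt_top
        exact (hs.mul_left D).tsum_ofReal_lt_top

omit [FiniteDimensional ℝ E] [Nontrivial E] [MeasurableSpace E] [BorelSpace E] in
lemma Vf_on (h : Widths ε) (c : E) {R : ℝ} {k : ℕ} {x : E} (hx : x ∈ Ann ε c R k) :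
    Vf ε c R x ≤ (4 / R ^ 2 * (32 * Cth)) * 2 ^ k / ε k := by
  have := mul_le_mul_of_nonneg_left (Qf_on h hx) (by positivity : 0 ≤ 4 / R ^ 2)
  refine this.trans (le_of_eq ?_)
  ring

omit [FiniteDimensional ℝ E] [Nontrivial E] [MeasurableSpace E] [BorelSpace E] in
lemma Vf_off (h : Widths ε) (c : E) {R : ℝ} {x : E} (hx : ∀ k, x ∉ Ann ε c R k) :
    Vf ε c R x = 0 := by
  unfold Vf
  rw [Qf_off h hx, mul_zero]

/-- `Vu` is integrable. -/
lemma integrable_Vu (h : Widths ε) (c : E) {R : ℝ} (hR : 0 < R) :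
    Integrable (fun x => Vf ε c R x * uf ε c R x) (volume : Measure E) := by
  have hC := Cth_pos
  refine integrable_of_kinks h c hR ((measurable_Vf ε c R).mul
    (contDiff_uf ε c R).continuous.measurable) (fun x => ?_) (fun x hx => ?_)
    (g := fun k => 4 / R ^ 2 * (am k / ε k * Cth)) (fun k => ?_) (fun k x hx => ?_) ?_
  · exact mul_nonneg (Vf_nonneg h c R x) (Wf_nonneg h _)
  · simp only [Vf_off h c hx, zero_mul]
  · have := am_pos k; have := h.pos k; positivity
  · simp only [Vf_mul_uf h c R x]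
    exact mul_le_mul_of_nonneg_left ((cf_on h hx).trans_le (mk'_le h k _)) (by positivity)
  · refine (summable_half.mul_left (4 / R ^ 2 * Cth)).congr fun k => ?_
    have := (h.pos k).ne'
    unfold am
    field_simp

/-- The differential inequality in the sense of distributions. -/
lemma distr (h : Widths ε) (c : E) {R : ℝ} (hR : 0 < R) {φ : E → ℝ} (hφ : ContDiff ℝ 2 φ)
    (hφc : HasCompactSupport φ) (hφ0 : ∀ x, 0 ≤ φ x) :
    ∫ x, uf ε c R x * Δ φ x ≤ ∫ x, Vf ε c R x * uf ε c R x * φ x := by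
  have hΔ : Continuous (Δ φ) := continuous_laplacian hφ
  have hΔc : HasCompactSupport (Δ φ) :=
    HasCompactSupport.intro hφc fun x hx => laplacian_zero_of_notMem hφ hx
  have hΔi : Integrable (Δ φ) volume := hΔ.integrable_of_hasCompactSupport hΔc
  have hint : ∀ k, Integrable (fun x => uk ε c R k x * Δ φ x) volume := fun k =>
    ((contDiff_uk ε c R k).continuous.mul hΔ).integrable_of_hasCompactSupport hΔc.mul_left
  have hsum : Summable fun k => ∫ x, ‖uk ε c R k x * Δ φ x‖ := by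
    refine Summable.of_nonneg_of_le (fun k => integral_nonneg fun x => norm_nonneg _)
      (fun k => ?_) (summable_half.mul_right (∫ x, ‖Δ φ x‖))
    rw [← integral_const_mul]
    refine integral_mono (hint k).norm (hΔi.norm.const_mul _) fun x => ?_
    simp only [norm_mul]
    exact mul_le_mul_of_nonneg_right (wk_le h k (sg_le_one c R x)) (norm_nonneg _)
  have key := hasSum_integral_of_summable_integral_norm hint hsum
  have e : ∀ x, ∑' k, uk ε c R k x * Δ φ x = uf ε c R x * Δ φ x := fun x => tsum_mul_right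
  simp_rw [e] at key
  obtain ⟨M, hM⟩ := hφc.exists_bound_of_continuous hφ.continuous
  have hVi : Integrable (fun x => Vf ε c R x * uf ε c R x * φ x) volume :=
    (integrable_Vu h c hR).mul_bdd hφ.continuous.aestronglyMeasurable (ae_of_all _ hM)
  refine le_of_tendsto' key.tendsto_sum_nat fun n => ?_
  have h1 : ∀ k, ∫ x, uk ε c R k x * Δ φ x ≤ ∫ x, 4 / R ^ 2 * mk' ε k (sg c R x) * φ x := by
    intro k
    rw [green (contDiff_uk ε c R k) hφ hφc]
    refine integral_mono ?_ ?_ ?_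
    · exact ((continuous_laplacian (contDiff_uk ε c R k)).mul
        hφ.continuous).integrable_of_hasCompactSupport hφc.mul_left
    · exact ((continuous_const.mul ((continuous_mk' ε k).comp (contDiff_sg c R).continuous)).mul
        hφ.continuous).integrable_of_hasCompactSupport hφc.mul_left
    · intro x
      exact mul_le_mul_of_nonneg_right (laplacian_uk_le h c hR k x) (hφ0 x)
  refine (Finset.sum_le_sum fun k _ => h1 k).trans ?_
  rw [← integral_finsetSum]
  · refine integral_mono (integrable_finsetSum _ fun k _ => ?_) hVi fun x => ?_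
    · exact ((continuous_const.mul ((continuous_mk' ε k).comp (contDiff_sg c R).continuous)).mul
        hφ.continuous).integrable_of_hasCompactSupport hφc.mul_left
    · simp only
      rw [← Finset.sum_mul, ← Finset.mul_sum, Vf_mul_uf h c R x]
      exact mul_le_mul_of_nonneg_right (mul_le_mul_of_nonneg_left (sum_le_cf h n _)
        (by positivity)) (hφ0 x)
  · intro k _
    exact ((continuous_const.mul ((continuous_mk' ε k).comp (contDiff_sg c R).continuous)).mul
        hφ.continuous).integrable_of_hasCompactSupport hφc.mul_left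

/-- The hypotheses of the problem hold. -/
lemma admissible {N : ℕ} [Nonempty (Fin N)] (h : Widths ε)
    {Ω : Set (EuclideanSpace ℝ (Fin N))} (c : EuclideanSpace ℝ (Fin N)) {R : ℝ} (hR : 0 < R)
    (hRΩ : Metric.closedBall c R ⊆ Ω) : Admissible Ω (Vf ε c R) (uf ε c R) := by
  refine ⟨?_, ?_, ?_, ?_, ?_, ?_⟩
  · have hcs : HasCompactSupport (uf ε c R) :=
      HasCompactSupport.intro (isCompact_closedBall c R) fun x hx => uf_zero h hR hx
    exact ((contDiff_uf ε c R).continuous.integrable_of_hasCompactSupport hcs).integrableOn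
  · exact (contDiff_uf ε c R).continuous.continuousOn
  · intro x _; exact Wf_nonneg h _
  · exact (integrable_Vu h c hR).integrableOn
  · intro φ hφ hφc _ hφ0
    have hφ2 : ContDiff ℝ 2 φ := contDiff_infty.mp hφ 2
    rw [setIntegral_eq_integral_of_forall_compl_eq_zero (fun x hx => by
        rw [uf_zero h hR (fun h => hx (hRΩ h)), zero_mul]),
      setIntegral_eq_integral_of_forall_compl_eq_zero (fun x hx => by
        rw [uf_zero h hR (fun h => hx (hRΩ h)), mul_zero, zero_mul])]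
    exact distr h c hR hφ2 hφc hφ0
  · exact ⟨Metric.closedBall c R, isCompact_closedBall c R, hRΩ, fun x _ hx => uf_zero h hR hx⟩

end construction

/-! ### The choice of the widths -/

/-- The condition on the gauge: it does not control the identity at infinity. -/
def Sublinear (Φ : ℝ → ℝ) : Prop := ∀ δ > 0, ∀ T : ℝ, ∃ t ≥ T, Φ t ≤ δ * t

lemma exists_widths {Φ : ℝ → ℝ} (hΦ : Sublinear Φ) {B : ℝ} (hB : 0 < B) :
    ∃ ε : ℕ → ℝ, Widths ε ∧
      (∀ k : ℕ, Φ (((k : ℝ) + 1) * (B * 2 ^ k) / ε k) * ε k ≤ (1 / 2) ^ k) ∧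
      (∀ k : ℕ, ε k ≤ ((1 / 2) ^ k / (1 + B * 2 ^ k)) ^ (k + 1)) := by
  have key : ∀ k : ℕ, ∃ e : ℝ, 0 < e ∧ e ≤ (1 / 2) ^ (k + 3) ∧
      Φ (((k : ℝ) + 1) * (B * 2 ^ k) / e) * e ≤ (1 / 2) ^ k ∧
      e ≤ ((1 / 2) ^ k / (1 + B * 2 ^ k)) ^ (k + 1) := by
    intro k
    set H : ℝ := ((k : ℝ) + 1) * (B * 2 ^ k) with hH
    have hH0 : 0 < H := by positivity
    set m : ℝ := min ((1 / 2) ^ (k + 3)) (((1 / 2) ^ k / (1 + B * 2 ^ k)) ^ (k + 1)) with hm
    have hm0 : 0 < m := lt_min (by positivity) (by positivity)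
    obtain ⟨t, ht, hΦt⟩ := hΦ ((1 / 2) ^ k / H) (by positivity) (H / m)
    have ht0 : 0 < t := lt_of_lt_of_le (by positivity) ht
    have hle : H / t ≤ m := by
      rw [div_le_iff₀ ht0]
      rw [ge_iff_le, div_le_iff₀ hm0] at ht
      linarith
    refine ⟨H / t, by positivity, hle.trans (min_le_left _ _), ?_, hle.trans (min_le_right _ _)⟩
    have e1 : H / (H / t) = t := by field_simp
    rw [e1]
    calc Φ t * (H / t) ≤ ((1 / 2) ^ k / H * t) * (H / t) :=
          mul_le_mul_of_nonneg_right hΦt (by positivity)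
      _ = (1 / 2) ^ k := by field_simp
  choose ε h1 h2 h3 h4 using key
  exact ⟨ε, ⟨h1, h2⟩, h3, h4⟩

/-- The powers `V^q`, `q < 1`. -/
lemma summable_pow {ε : ℕ → ℝ} (h : Widths ε) {B : ℝ} (hB : 0 < B)
    (hε : ∀ k : ℕ, ε k ≤ ((1 / 2) ^ k / (1 + B * 2 ^ k)) ^ (k + 1)) {q : ℝ} (hq0 : 0 < q)
    (hq1 : q < 1) : Summable fun k => (B * 2 ^ k / ε k) ^ q * ε k := by
  refine Summable.of_norm_bounded_eventually_nat summable_half ?_
  obtain ⟨K, hK⟩ := exists_nat_gt (1 / (1 - q))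
  filter_upwards [eventually_ge_atTop K] with k hk
  have hε0 := h.pos k
  have hε1 : ε k ≤ 1 := (h.le k).trans (pow_le_one₀ (by norm_num) (by norm_num))
  have hM : 0 < B * 2 ^ k := by positivity
  rw [Real.norm_eq_abs, abs_of_nonneg (by positivity), Real.div_rpow hM.le hε0.le, div_mul_eq_mul_div,
    mul_div_assoc]
  have e1 : ε k / ε k ^ q = ε k ^ (1 - q) := by
    rw [Real.rpow_sub hε0, Real.rpow_one]
  rw [e1]
  have h1 : (B * 2 ^ k) ^ q ≤ 1 + B * 2 ^ k := by
    calc (B * 2 ^ k) ^ q ≤ (1 + B * 2 ^ k) ^ q :=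
          Real.rpow_le_rpow hM.le (by linarith) hq0.le
      _ ≤ (1 + B * 2 ^ k) ^ (1 : ℝ) := Real.rpow_le_rpow_of_exponent_le (by linarith) hq1.le
      _ = _ := Real.rpow_one _
  have h2 : ε k ^ (1 - q) ≤ (1 / 2) ^ k / (1 + B * 2 ^ k) := by
    have hkK : (K : ℝ) ≤ k := by exact_mod_cast hk
    have h3 : ((k + 1 : ℕ) : ℝ)⁻¹ ≤ 1 - q := by
      rw [inv_le_comm₀ (by positivity) (by linarith), ← one_div]
      push_cast
      linarith
    calc ε k ^ (1 - q) ≤ ε k ^ (((k + 1 : ℕ) : ℝ)⁻¹) :=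
          Real.rpow_le_rpow_of_exponent_ge hε0 hε1 h3
      _ ≤ (((1 / 2) ^ k / (1 + B * 2 ^ k)) ^ (k + 1)) ^ (((k + 1 : ℕ) : ℝ)⁻¹) :=
          Real.rpow_le_rpow hε0.le (hε k) (by positivity)
      _ = _ := Real.pow_rpow_inv_natCast (by positivity) (by omega)
  calc (B * 2 ^ k) ^ q * ε k ^ (1 - q) ≤
      (1 + B * 2 ^ k) * ((1 / 2) ^ k / (1 + B * 2 ^ k)) := by
        apply mul_le_mul h1 h2 (by positivity) (by positivity)
    _ = (1 / 2) ^ k := by field_simp

section final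
variable {E : Type*} [NormedAddCommGroup E] [InnerProductSpace ℝ E] [FiniteDimensional ℝ E]
  [MeasurableSpace E] [BorelSpace E] [Nontrivial E] {ε : ℕ → ℝ}

/-- `V^{1/2}` is in `L^p` for every `p < 2`. -/
lemma memLp_sqrt (h : Widths ε) (c : E) {R : ℝ} (hR : 0 < R)
    (hε : ∀ k : ℕ, ε k ≤ ((1 / 2) ^ k / (1 + (4 / R ^ 2 * (32 * Cth)) * 2 ^ k)) ^ (k + 1))
    {p : ℝ≥0∞} (hp : p < 2) : MemLp (fun x => √(max (Vf ε c R x) 0)) p (volume : Measure E) := by
  have hC := Cth_pos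
  have e0 : (fun x => √(max (Vf ε c R x) 0)) = fun x => √(Vf ε c R x) := by
    ext x; rw [max_eq_left (Vf_nonneg h c R x)]
  rw [e0]
  have hmeas : AEStronglyMeasurable (fun x => √(Vf ε c R x)) (volume : Measure E) :=
    (measurable_Vf ε c R).sqrt.aestronglyMeasurable
  rcases eq_or_ne p 0 with rfl | hp0
  · exact memLp_zero_iff_aestronglyMeasurable.mpr hmeas
  have hptop : p ≠ ∞ := ne_top_of_lt hp
  rw [← integrable_norm_rpow_iff hmeas hp0 hptop]
  set r := p.toReal with hr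
  have hr0 : 0 < r := ENNReal.toReal_pos hp0 hptop
  have hr2 : r < 2 := by
    have := (ENNReal.toReal_lt_toReal hptop (by norm_num)).mpr hp
    simpa using this
  set q := r / 2 with hq
  have hq0 : 0 < q := by positivity
  have hq1 : q < 1 := by rw [hq]; linarith
  have hval : (fun x => ‖√(Vf ε c R x)‖ ^ r) = fun x => (Vf ε c R x) ^ q := by
    ext x
    have h0 := Vf_nonneg h c R x
    rw [Real.norm_eq_abs, abs_of_nonneg (Real.sqrt_nonneg _), Real.sqrt_eq_rpow,
      ← Real.rpow_mul h0]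
    congr 1
    rw [hq]; ring
  rw [hval]
  refine integrable_of_kinks h c hR ((measurable_Vf ε c R).pow_const q)
    (fun x => Real.rpow_nonneg (Vf_nonneg h c R x) q)
    (fun x hx => by simp only [Vf_off h c hx, Real.zero_rpow hq0.ne'])
    (g := fun k => ((4 / R ^ 2 * (32 * Cth)) * 2 ^ k / ε k) ^ q)
    (fun k => ?_) (fun k x hx => ?_) (summable_pow h (by positivity) hε hq0 hq1)
  · have := h.pos k; positivity
  · exact Real.rpow_le_rpow (Vf_nonneg h c R x) (Vf_on h c hx) hq0.le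

/-- `Φ(l V)` is integrable for every `l`. -/
lemma integrable_gauge (h : Widths ε) (c : E) {R : ℝ} (hR : 0 < R) {Φ : ℝ → ℝ}
    (hmono : MonotoneOn Φ (Ici 0)) (h0 : Φ 0 = 0)
    (hε : ∀ k : ℕ, Φ (((k : ℝ) + 1) * ((4 / R ^ 2 * (32 * Cth)) * 2 ^ k) / ε k) * ε k ≤
      (1 / 2) ^ k) {l : ℝ} (hl : 0 ≤ l) :
    Integrable (fun x => Φ (l * Vf ε c R x)) (volume : Measure E) := by
  have hC := Cth_pos
  set B : ℝ := 4 / R ^ 2 * (32 * Cth) with hB
  have hB0 : 0 < B := by positivity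
  have hnn : ∀ t, 0 ≤ t → 0 ≤ Φ t := fun t ht => by
    rw [← h0]; exact hmono (mem_Ici.mpr le_rfl) (mem_Ici.mpr ht) ht
  have hmeas : Measurable fun t => Φ (max t 0) := by
    apply Monotone.measurable
    intro a b hab
    exact hmono (mem_Ici.mpr (le_max_right _ _)) (mem_Ici.mpr (le_max_right _ _))
      (max_le_max_right 0 hab)
  have hV0 : ∀ x, 0 ≤ l * Vf ε c R x := fun x => mul_nonneg hl (Vf_nonneg h c R x)
  have e : (fun x => Φ (l * Vf ε c R x)) = fun x => (fun t => Φ (max t 0)) (l * Vf ε c R x) := by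
    ext x
    simp only [max_eq_left (hV0 x)]
  refine integrable_of_kinks h c hR ?_ (fun x => hnn _ (hV0 x))
    (fun x hx => by simp only [Vf_off h c hx, mul_zero, h0])
    (g := fun k => Φ (l * (B * 2 ^ k / ε k))) (fun k => ?_) (fun k x hx => ?_) ?_
  · rw [e]
    exact hmeas.comp ((measurable_Vf ε c R).const_mul l)
  · have := h.pos k
    exact hnn _ (by positivity)
  · exact hmono (mem_Ici.mpr (hV0 x)) (mem_Ici.mpr ((hV0 x).trans
      (mul_le_mul_of_nonneg_left (Vf_on h c hx) hl))) (mul_le_mul_of_nonneg_left (Vf_on h c hx) hl)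
  · refine Summable.of_norm_bounded_eventually_nat summable_half ?_
    obtain ⟨K, hK⟩ := exists_nat_gt l
    filter_upwards [eventually_ge_atTop K] with k hk
    have hkK : (K : ℝ) ≤ k := by exact_mod_cast hk
    have hε0 := h.pos k
    rw [Real.norm_eq_abs, abs_of_nonneg (mul_nonneg (hnn _ (by positivity)) hε0.le)]
    refine le_trans (mul_le_mul_of_nonneg_right ?_ hε0.le) (hε k)
    have hle : l * (B * 2 ^ k / ε k) ≤ ((k : ℝ) + 1) * (B * 2 ^ k) / ε k := by
      have e2 : ((k : ℝ) + 1) * (B * 2 ^ k) / ε k = ((k : ℝ) + 1) * (B * 2 ^ k / ε k) := by ring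
      rw [e2]
      exact mul_le_mul_of_nonneg_right (by linarith) (by positivity)
    exact hmono (mem_Ici.mpr (by positivity)) (mem_Ici.mpr (by positivity)) hle

end final

/-- **Main theorem.** Let `Φ : [0,∞) → [0,∞)` be nondecreasing with `Φ 0 = 0` and
`liminf Φ(t)/t = 0` as `t → ∞`. For every `N ≥ 1` and every nonempty open set `Ω ⊆ ℝ^N` there are a
measurable `V ≥ 0` with `∫_Ω Φ(l V) < ∞` for every `l ≥ 0` and `V^{1/2} ∈ L^p(Ω)` for every `p < 2`
and a `C¹` function `u` satisfying all hypotheses of the problem with `u ≢ 0` in `Ω`. -/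
theorem result (N : ℕ) (hN : 1 ≤ N) (Ω : Set (EuclideanSpace ℝ (Fin N))) (hΩ : IsOpen Ω)
    (hne : Ω.Nonempty) (Φ : ℝ → ℝ) (hmono : MonotoneOn Φ (Ici 0)) (h0 : Φ 0 = 0)
    (hΦ : ∀ δ > 0, ∀ T : ℝ, ∃ t ≥ T, Φ t ≤ δ * t) :
    ∃ V u : EuclideanSpace ℝ (Fin N) → ℝ, Measurable V ∧ (∀ x, 0 ≤ V x) ∧
      (∀ l : ℝ, 0 ≤ l → IntegrableOn (fun x => Φ (l * V x)) Ω) ∧
      (∀ p : ℝ≥0∞, p < 2 → MemLp (fun x => √(max (V x) 0)) p (volume.restrict Ω)) ∧
      ContDiff ℝ 1 u ∧ Admissible Ω V u ∧ ∃ x ∈ Ω, u x ≠ 0 := by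
  obtain ⟨c, hc⟩ := hne
  obtain ⟨R, hR, hRΩ⟩ := Metric.nhds_basis_closedBall.mem_iff.mp (hΩ.mem_nhds hc)
  have : Nonempty (Fin N) := ⟨⟨0, hN⟩⟩
  have hC := Cth_pos
  obtain ⟨ε, h, h1, h2⟩ := exists_widths hΦ (B := 4 / R ^ 2 * (32 * Cth)) (by positivity)
  refine ⟨Vf ε c R, uf ε c R, measurable_Vf ε c R, Vf_nonneg h c R, fun l hl => ?_, fun p hp => ?_,
    contDiff_uf ε c R, admissible h c hR hRΩ, c, hc, ?_⟩
  · exact (integrable_gauge h c hR hmono h0 h1 hl).integrableOn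
  · exact (memLp_sqrt h c hR h2 hp).restrict _
  · have : 0 < uf ε c R c := Wf_pos h (by simp [sg])
    exact this.ne'

end Pool.Agent.Results.MP_1d8377_an.GaugeSharp
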